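import Mathlib
import Pool.Agent.P.MP_87683a_ag.Main

namespace Pool.Agent.Results.MP_87683a_ag.Counterexample

open MvPolynomial

variable {K : Type*} [Field K]

/-- The zero locus of `E` in the projective plane. -/
def V (E : MvPolynomial (Fin 3) K) : Set (Projectivization K (Fin 3 → K)) :=
  {x | eval x.rep E = 0}

/-- `E` is the equation of a plane curve: an irreducible homogeneous polynomial. -/
def IsCurve (E : MvPolynomial (Fin 3) K) : Prop :=
  Irreducible E ∧ ∃ d : ℕ, E.IsHomogeneous d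

/-- The curve `E = 0` is parameterizable by forms of degree `n`: there are forms `F 0`, `F 1` of
degree `n` without common factor and forms `u 0`, `u 1`, `u 2` in two variables, of one degree and
without common factor, such that `u` maps `ℙ¹` into the curve, `F ∘ u` is the identity of `ℙ¹` and
`u ∘ F` is the identity of the curve (as rational maps). -/
def ParamByForms (n : ℕ) (E : MvPolynomial (Fin 3) K) : Prop :=
  ∃ (F : Fin 2 → MvPolynomial (Fin 3) K) (d : ℕ) (u : Fin 3 → MvPolynomial (Fin 2) K),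
    (∀ j, (F j).IsHomogeneous n) ∧ IsRelPrime (F 0) (F 1) ∧
    (∀ i, (u i).IsHomogeneous d) ∧ (∀ c, (∀ i, c ∣ u i) → IsUnit c) ∧
    aeval u E = 0 ∧
    (∃ h : MvPolynomial (Fin 2) K, h ≠ 0 ∧ ∀ j, aeval u (F j) = h * X j) ∧
    (∃ i, ¬ E ∣ aeval F (u i)) ∧
    ∀ i j, E ∣ X i * aeval F (u j) - X j * aeval F (u i)

/-- `G = (G 0 : G 1 : G 2)` is a birational map of the plane with inverse `(F 0 : F 1 : F 2)`. -/
def IsBirationalPair (G F : Fin 3 → MvPolynomial (Fin 3) K) : Prop :=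
  (∃ e : ℕ, ∀ i, (G i).IsHomogeneous e) ∧ (∃ e : ℕ, ∀ i, (F i).IsHomogeneous e) ∧
    (∃ h : MvPolynomial (Fin 3) K, h ≠ 0 ∧ ∀ i, aeval G (F i) = h * X i) ∧
    (∃ h : MvPolynomial (Fin 3) K, h ≠ 0 ∧ ∀ i, aeval F (G i) = h * X i)

/-- The image of a set of points under `(G 0 : G 1 : G 2)`, taken at the points where the `G i` do
not all vanish. -/
def image (G : Fin 3 → MvPolynomial (Fin 3) K) (A : Set (Projectivization K (Fin 3 → K))) :
    Set (Projectivization K (Fin 3 → K)) :=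
  {y | ∃ x ∈ A, ∃ hx : (fun i => eval x.rep (G i)) ≠ 0,
    y = Projectivization.mk K (fun i => eval x.rep (G i)) hx}

/-- Zariski closure in the projective plane. -/
def zariskiClosure (A : Set (Projectivization K (Fin 3 → K))) :
    Set (Projectivization K (Fin 3 → K)) :=
  {y | ∀ (H : MvPolynomial (Fin 3) K) (m : ℕ), H.IsHomogeneous m →
    (∀ x ∈ A, eval x.rep H = 0) → eval y.rep H = 0}

open Pool.Agent.P.MP_87683a_ag

theorem eval_rep_mk {H : MvPolynomial (Fin 3) K} {m : ℕ} (hH : H.IsHomogeneous m)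
    (p : Fin 3 → K) (hp : p ≠ 0) :
    eval (Projectivization.mk K p hp).rep H = 0 ↔ eval p H = 0 := by
  obtain ⟨a, ha⟩ := Projectivization.exists_smul_eq_mk_rep K p hp
  rw [← ha, Units.smul_def, eval_smul_hom hH, mul_eq_zero, or_iff_right (pow_ne_zero _ a.ne_zero)]

/-- Over every algebraically closed field there is a plane curve parameterizable by cubics that is
not the closure of the image of a curve parameterizable by lines under a birational map whose
inverse is given by cubic forms. -/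
theorem result (K : Type*) [Field K] [IsAlgClosed K] :
    ∃ E : MvPolynomial (Fin 3) K, IsCurve E ∧ ParamByForms 3 E ∧
      ¬ ∃ (G F : Fin 3 → MvPolynomial (Fin 3) K) (E₀ : MvPolynomial (Fin 3) K),
        IsBirationalPair G F ∧ (∀ i, (F i).IsHomogeneous 3) ∧ IsCurve E₀ ∧ ParamByForms 1 E₀ ∧
        V E = zariskiClosure (image G (V E₀)) := by
  refine ⟨EE K, ⟨(prime_EE K).irreducible, 6, hom_EE K⟩,
    ⟨![P1 K, P2 K], 6, uu K, ?_, relPrime_P K, hom_uu K, uu_coprime K, uu_EE K,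
      ⟨_, hh_ne_zero K, uu_P K⟩, ⟨2, not_dvd_uuP K⟩, cross_dvd K⟩, ?_⟩
  · intro j
    fin_cases j
    · exact hom_P1 K
    · exact hom_P2 K
  rintro ⟨G, F, E₀, ⟨⟨e, hG⟩, -, ⟨h, hh, hFG⟩, -⟩, hF, ⟨hirr, d₀, hE₀⟩,
    ⟨L, d, v, hL, -, hv, -, hv0, ⟨h0, hh0, hLv⟩, ⟨i0, hi0⟩, hcross⟩, hV⟩
  refine not_mem G F e hG hF h hh hFG E₀ hirr.prime L hL d v hv hv0 h0 hh0 hLv i0 hi0 hcross ?_ ?_
  · refine nss hirr.prime fun p hp hp0 => ?_
    rw [← eval_rep_mk ((hom_EE K).aeval G hG) p hp, eval_aeval']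
    set x := Projectivization.mk K p hp with hx
    by_cases hz : (fun i => eval x.rep (G i)) = 0
    · rw [hz]
      simp [EE, P1]
    · have h1 : Projectivization.mk K _ hz ∈ V (EE K) := by
        rw [hV]
        exact fun H m _ hH => hH _ ⟨x, (eval_rep_mk hE₀ p hp).2 hp0, hz, rfl⟩
      exact (eval_rep_mk (hom_EE K) _ hz).1 h1
  · intro H m hH hdvd
    refine nss (prime_EE K) fun p hp hp0 => ?_
    have h1 : Projectivization.mk K p hp ∈ V (EE K) := (eval_rep_mk (hom_EE K) p hp).2 hp0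
    rw [hV] at h1
    refine (eval_rep_mk hH p hp).1 (h1 H m hH ?_)
    rintro y ⟨x, hx, hz, rfl⟩
    rw [eval_rep_mk hH, ← eval_aeval']
    obtain ⟨R, hR⟩ := hdvd
    rw [hR, map_mul, show eval x.rep E₀ = 0 from hx, zero_mul]

end Pool.Agent.Results.MP_87683a_ag.Counterexample
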